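import Pool.Agent.Work.MP_47f387_co.Assembled

/-!
# MP_47f387_co: equitable colourings with far fewer than `Δ` colours

`Equi G k` (in `Work/MP_47f387_co/Defs.lean`): `G` has a proper colouring with `k` colours whose
classes differ in size by at most one.
-/

namespace Pool.Agent.Results.MP_47f387_co.BelowMaxDegree

open Pool.Agent.Work.MP_47f387_co

/-- For every `R` there is a `C` such that every finite graph `G` with `C χ(G) ≤ k`, `C k ≤ |G|`
and `Δ(G) ≤ R k` is equitably `k`-colourable. -/
theorem result (R : ℕ) : ∃ C : ℕ, ∀ (V : Type) [Fintype V] [DecidableEq V]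
    (G : SimpleGraph V) [DecidableRel G.Adj] (t k : ℕ), G.Colorable t → C * t ≤ k →
    C * k ≤ Fintype.card V → G.maxDegree ≤ R * k → Equi G k :=
  assembled.2 R

end Pool.Agent.Results.MP_47f387_co.BelowMaxDegree
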