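import Pool.Agent.Work.MP_47f387_co.Bd.F03

/-!
# MP_47f387_co: for every `Δ ≥ 5` the Chen-Lih-Wu conjecture reduces to an explicit finite check

`Equi G k` (in `Work/MP_47f387_co/Defs.lean`): `G` has a proper colouring with `k` colours whose
classes differ in size by at most one.
-/

namespace Pool.Agent.Results.MP_47f387_co.FiniteCheck

open Pool.Agent.Work.MP_47f387_co

/-- Let `d ≥ 5`. If every connected graph with all degrees at most `d`, without `K_d`, with fewer
than `(d + 1) ^ ((d + 1) ^ 26)` vertices (`6 ^ (6 ^ 40)` for `d = 5`) and, for odd `d`, without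
`K_{d,d}` is equitably `d`-colourable, then every finite graph with all degrees at most `d`,
without `K_{d+1}` and, for odd `d`, without `K_{d,d}` is equitably `d`-colourable. -/
theorem result (d : ℕ) (hd : 5 ≤ d)
    (hyp : ∀ (V : Type) [Fintype V] [DecidableEq V] (G : SimpleGraph V) [DecidableRel G.Adj],
      G.Connected → (∀ v, G.degree v ≤ d) → G.CliqueFree d →
      (Odd d → ∀ X Y : Finset V, X.card = d → Y.card = d → ¬ ∀ x ∈ X, ∀ y ∈ Y, G.Adj x y) →
      Fintype.card V < (d + 1) ^ ((d + 1) ^ (if d = 5 then 40 else 26)) → Equi G d)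
    (V : Type) [Fintype V] [DecidableEq V] (G : SimpleGraph V) [DecidableRel G.Adj]
    (hdeg : ∀ v, G.degree v ≤ d) (hfree : G.CliqueFree (d + 1))
    (hKdd : Odd d → ∀ X Y : Finset V, X.card = d → Y.card = d →
      ¬ ∀ x ∈ X, ∀ y ∈ Y, G.Adj x y) :
    Equi G d := by
  by_cases hd5 : d = 5
  · subst hd5
    have ho : Odd 5 := ⟨2, rfl⟩
    refine Five.asmFin (5 + 1) rfl (fun V _ _ G _ hG hdeg hfree hKF hc => hyp V G hG hdeg hfree
      (fun _ => hKF) ?_) V G hdeg hfree (hKdd ho)
    rw [if_pos rfl]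
    exact hc
  · have hd6 : 6 ≤ d := by omega
    have hle : (d + 1) ^ ((d + 1) ^ (Large.rad d + 17)) ≤ (d + 1) ^ ((d + 1) ^ 26) := by
      apply Nat.pow_le_pow_right (Nat.succ_pos d)
      apply Nat.pow_le_pow_right (Nat.succ_pos d)
      unfold Large.rad
      split_ifs <;> omega
    rw [if_neg hd5] at hyp
    exact Large.asmT4x d hd6
      (fun V _ _ G _ hG hdeg hfree hKF hc => hyp V G hG hdeg hfree hKF (lt_of_lt_of_le hc hle))
      V G hdeg hfree hKdd

end Pool.Agent.Results.MP_47f387_co.FiniteCheck
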