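import Pool.Agent.Work.MP_47f387_co.Bd.F03

/-!
# MP_47f387_co: the Chen-Lih-Wu conjecture for graphs with many vertices outside copies of `K_Δ`

`Equi G k` (in `Work/MP_47f387_co/Defs.lean`): `G` has a proper colouring with `k` colours whose
classes differ in size by at most one.
-/

namespace Pool.Agent.Results.MP_47f387_co.LargeGraphs

open Pool.Agent.Work.MP_47f387_co

/-- Let `d ≥ 5` and let `G` be a finite graph with all degrees at most `d` and without a complete
subgraph on `d + 1` vertices; for `d = 5` let `G` also be connected and without `K_5`. If every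
family `P` of pairwise disjoint complete subgraphs on `d` vertices leaves at least
`(d + 1) ^ ((d + 1) ^ 30)` vertices uncovered (`6 ^ (6 ^ 40)` for `d = 5`), then `G` is equitably
`d`-colourable. -/
theorem result (d : ℕ) (hd : 5 ≤ d) (V : Type) [Fintype V] [DecidableEq V]
    (G : SimpleGraph V) [DecidableRel G.Adj] (hdeg : ∀ v, G.degree v ≤ d)
    (hfree : G.CliqueFree (d + 1)) (h5 : d = 5 → G.Connected ∧ G.CliqueFree 5)
    (hP : ∀ P : Finset (Finset V), (∀ B ∈ P, G.IsNClique d B) →
      (∀ B ∈ P, ∀ B' ∈ P, B ≠ B' → Disjoint B B') →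
      P.card * d + (d + 1) ^ ((d + 1) ^ (if d = 5 then 40 else 30)) ≤ Fintype.card V) :
    Equi G d := by
  by_cases hd5 : d = 5
  · subst hd5
    obtain ⟨h1, h2⟩ := h5 rfl
    refine Five.asmLarge (5 + 1) rfl V G h1 hdeg h2 ?_
    have h := hP ∅ (by simp) (by simp)
    rw [Finset.card_empty, Nat.zero_mul, Nat.zero_add, if_pos rfl] at h
    exact h
  · refine Large.asmT3x d (by omega) V G hdeg hfree ?_
    rw [if_neg hd5] at hP
    exact hP

end Pool.Agent.Results.MP_47f387_co.LargeGraphs
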