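import Pool.Agent.Work.MP_47f387_co.Assembled

/-!
# MP_47f387_co: Meyer's conjecture for graphs with small chromatic number

`Equi G k` (in `Work/MP_47f387_co/Defs.lean`): `G` has a proper colouring with `k` colours whose
classes differ in size by at most one.
-/

namespace Pool.Agent.Results.MP_47f387_co.SmallChromatic

open Pool.Agent.Work.MP_47f387_co

/-- A finite graph `G` (connected or not) with `Δ(G) ≥ 10 ^ 6 χ(G)` is equitably
`k`-colourable for some `k ≤ Δ(G)`, and even for `k = Δ(G)` unless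
`1.9 Δ(G) < |G| < 2.1 Δ(G)`. -/
theorem result (V : Type) [Fintype V] [DecidableEq V] (G : SimpleGraph V)
    [DecidableRel G.Adj] (t : ℕ) (ht : G.Colorable t) (hD : 10 ^ 6 * t ≤ G.maxDegree) :
    ∃ k ≤ G.maxDegree, Equi G k ∧
      ((10 * Fintype.card V ≤ 19 * G.maxDegree ∨ 21 * G.maxDegree ≤ 10 * Fintype.card V) →
        k = G.maxDegree) := by
  obtain ⟨h1, k, hk, h2⟩ := assembled.1 V G t ht hD
  by_cases h : 10 * Fintype.card V ≤ 19 * G.maxDegree ∨
      21 * G.maxDegree ≤ 10 * Fintype.card V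
  · exact ⟨G.maxDegree, le_refl _, h1 h, fun _ => rfl⟩
  · exact ⟨k, hk, h2, fun h' => absurd h' h⟩

end Pool.Agent.Results.MP_47f387_co.SmallChromatic
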